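import Pool.Agent.W935.SK.Stm

/-!
# Project SK (MP_8d13b5_lc), part ALG: the errorless algorithm
-/

set_option autoImplicit false

namespace Pool.Agent.W685.SK

open Polynomial Finset Pool.Agent.H884R2.Sko Pool.Agent.H692R2.USS Pool.Agent.Helper446
open Pool.Agent.W935.SK

/-- `run` computes `seq` -/
theorem run_seq {d : ℕ} (hd : 1 ≤ d) {C e : List (ℕ × ℕ)} (hC : C.length = d) (he : e.length = d)
    (c' : Fin d → ℤ) (hc' : ∀ i : Fin d, c' i = iv (C.getD (d - 1 - i) (0, 0)))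
    (e' : Fin d → ℤ) (he' : ∀ i : Fin d, e' i = iv (e.getD i (0, 0))) (n : ℕ) :
    iv (run (Fq C) e n) = seq c' e' n := by
  refine eq_seq c' e' (fun n => iv (run (Fq C) e n)) ?_ ?_ n
  · intro n
    have h := run_ann (G := Fq C) (a := e) (by omega) (by rw [Fq_length]; omega)
    rw [ann_PG] at h
    have h2 := h n
    rw [Fq_length, hC] at h2
    show iv (run (Fq C) e (n + d)) = _
    rw [h2, ← Finset.sum_neg_distrib,
      ← Fin.sum_univ_eq_sum_range (fun i => -(iv ((Fq C).getD i (0, 0)) *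
        iv (run (Fq C) e (n + i)))) d]
    refine Finset.sum_congr rfl fun i _ => ?_
    rw [Fq_getD (by omega), iv_zn, hc' i, hC]
    ring
  · intro i
    show iv (run (Fq C) e i) = _
    rw [run_init (by omega), he' i]

/-- the coded unit vectors -/
def uv (d j : ℕ) : List (ℕ × ℕ) :=
  (List.range d).map (fun i => (1 - ((i - j) + (j - i)), 0))

theorem uv_length (d j : ℕ) : (uv d j).length = d := by simp [uv]

theorem uv_getD {d j i : ℕ} (h : i < d) :
    iv ((uv d j).getD i (0, 0)) = if i = j then 1 else 0 := by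
  unfold uv
  rw [List.getD_eq_getElem?_getD, List.getElem?_map, List.getElem?_range h]
  simp only [Option.map_some, Option.getD_some, iv]
  split_ifs with hij
  · subst hij
    simp
  · have : 1 - ((i - j) + (j - i)) = 0 := by omega
    rw [this]
    simp

@[fun_prop] theorem cuv {α : Type*} [Primcodable α] {d j : α → ℕ} (hd : Computable d)
    (hj : Computable j) : Computable fun x => uv (d x) (j x) := by
  have h : Computable fun x => (List.range (d x)).foldl
      (fun (s : List (ℕ × ℕ)) i => s ++ [(1 - ((i - j x) + (j x - i)), 0)]) [] := by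
    have hr : Computable fun x => List.range (d x) :=
      Primrec.list_range.to_comp.comp hd
    refine RE.list_foldl (h := fun x (y : List (ℕ × ℕ) × ℕ) =>
      y.1 ++ [(1 - ((y.2 - j x) + (j x - y.2)), 0)]) hr (Computable.const []) ?_
    show Computable fun z : α × (List (ℕ × ℕ) × ℕ) =>
      z.2.1 ++ [(1 - ((z.2.2 - j z.1) + (j z.1 - z.2.2)), 0)]
    fun_prop
  refine h.of_eq fun x => ?_
  unfold uv
  have key : ∀ (f : ℕ → ℕ × ℕ) (l : List ℕ) (s : List (ℕ × ℕ)),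
      l.foldl (fun s i => s ++ [f i]) s = s ++ l.map f := by
    intro f l
    induction l with
    | nil => intro s; simp
    | cons a l ih => intro s; rw [List.foldl_cons, ih, List.map_cons, List.append_assoc]; rfl
  exact (key (fun i => (1 - ((i - j x) + (j x - i)), 0)) _ []).trans
    (List.nil_append _)

/-- integer vectors are combinations of the unit vectors -/
theorem seq_units {d : ℕ} (c e : Fin d → ℤ) (n : ℕ) :
    seq c e n = ∑ j : Fin d, e j * seq c (fun i => if (i : ℕ) = j then 1 else 0) n := by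
  symm
  refine eq_seq c e (fun n => ∑ j : Fin d, e j * seq c (fun i => if (i : ℕ) = j then 1 else 0) n)
    ?_ ?_ n
  · intro n
    simp only [seq_sol, Finset.mul_sum]
    rw [Finset.sum_comm]
    refine Finset.sum_congr rfl fun i _ => Finset.sum_congr rfl fun j _ => ?_
    ring
  · intro i
    simp only [seq_init]
    rw [Finset.sum_eq_single i]
    · simp
    · intro j _ hj
      rw [if_neg (fun h => hj (Fin.ext h.symm)), mul_zero]
    · intro h
      exact absurd (Finset.mem_univ _) h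

theorem modeq_iff (x y : ℕ × ℕ) (m : ℕ) :
    (x.1 + y.2) % m = (x.2 + y.1) % m ↔ (m : ℤ) ∣ iv x - iv y := by
  unfold iv
  constructor
  · intro h
    have := (Nat.modEq_iff_dvd.1 (show x.2 + y.1 ≡ x.1 + y.2 [MOD m] from h.symm))
    push_cast at this
    have e : (x.1 : ℤ) - x.2 - (y.1 - y.2) = x.1 + y.2 - (x.2 + y.1) := by ring
    rw [e]
    exact this
  · intro h
    have h2 : ((x.2 + y.1 : ℕ) : ℤ) ≡ ((x.1 + y.2 : ℕ) : ℤ) [ZMOD m] := by
      rw [Int.modEq_iff_dvd]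
      push_cast
      have e : (x.1 : ℤ) - x.2 - (y.1 - y.2) = x.1 + y.2 - (x.2 + y.1) := by ring
      rw [← e]
      exact h
    exact (Int.natCast_modEq_iff.1 h2).symm

theorem eqv_iff (x y : ℕ × ℕ) : x.1 + y.2 = x.2 + y.1 ↔ iv x = iv y := by
  unfold iv
  omega

/-- the search relation -/
def Q (p : List (ℕ × ℕ) × List (ℕ × ℕ)) (L : List ℕ) (N k : ℕ) (s : ℕ × ℕ)
    (a' : List (ℕ × ℕ)) (q b v : ℕ) (lam : ℕ × ℕ) : Prop :=
  ((∀ n ∈ L, (run (Fq p.1) p.2 n).1 = (run (Fq p.1) p.2 n).2) ∧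
   (∀ n < N, (run (Fq p.1) p.2 n).1 ≠ (run (Fq p.1) p.2 n).2 ∨ n ∈ L)) ∧
  (1 ≤ k ∧ s.1 ≠ s.2 ∧ a'.length = p.1.length ∧
   ∀ i < p.1.length, (run (Fq p.1) a' (k + i)).1 + (zm s (run (Fq p.1) p.2 (N + i))).2 =
    (run (Fq p.1) a' (k + i)).2 + (zm s (run (Fq p.1) p.2 (N + i))).1) ∧
  (q.Prime ∧ 3 ≤ q ∧ 1 ≤ b ∧ 1 ≤ v ∧ lam.1 % q ≠ lam.2 % q) ∧
  (∀ j < p.1.length,
    ((run (Fq p.1) (uv p.1.length j) b).1 +
      (zm lam (run (Fq p.1) (uv p.1.length j) 0)).2) % q ^ v =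
    ((run (Fq p.1) (uv p.1.length j) b).2 +
      (zm lam (run (Fq p.1) (uv p.1.length j) 0)).1) % q ^ v) ∧
  (run (Fq p.1) a' 0).1 = (run (Fq p.1) a' 0).2 ∧
  (∀ n < b, n = 0 ∨ (run (Fq p.1) a' n).1 % q ≠ (run (Fq p.1) a' n).2 % q) ∧
  (run (Fq p.1) a' b).1 % q ^ (v + 1) ≠ (run (Fq p.1) a' b).2 % q ^ (v + 1)

/-- the type of the witnesses -/
abbrev Wt : Type := ℕ × ℕ × (ℕ × ℕ) × List (ℕ × ℕ) × ℕ × ℕ × ℕ × (ℕ × ℕ)

theorem re_Q : REPred fun x : ((List (ℕ × ℕ) × List (ℕ × ℕ)) × List ℕ) × Wt =>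
    Q x.1.1 x.1.2 x.2.1 x.2.2.1 x.2.2.2.1 x.2.2.2.2.1 x.2.2.2.2.2.1 x.2.2.2.2.2.2.1
      x.2.2.2.2.2.2.2.1 x.2.2.2.2.2.2.2.2 := by
  unfold Q
  refine RE.and (RE.and ?_ ?_) (RE.and (RE.and ?_ (RE.and ?_ (RE.and ?_ ?_)))
    (RE.and (RE.and ?_ (RE.and ?_ (RE.and ?_ (RE.and ?_ ?_)))) (RE.and ?_
      (RE.and ?_ (RE.and ?_ ?_)))))
  · refine RE.all_mem (p := fun (x : ((List (ℕ × ℕ) × List (ℕ × ℕ)) × List ℕ) × Wt) (n : ℕ) =>
      (run (Fq x.1.1.1) x.1.1.2 n).1 = (run (Fq x.1.1.1) x.1.1.2 n).2) ?_ (by fun_prop)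
    exact RE.eq (by fun_prop) (by fun_prop)
  · refine RE.all_lt (p := fun (x : ((List (ℕ × ℕ) × List (ℕ × ℕ)) × List ℕ) × Wt) (n : ℕ) =>
      (run (Fq x.1.1.1) x.1.1.2 n).1 ≠ (run (Fq x.1.1.1) x.1.1.2 n).2 ∨ n ∈ x.1.2) ?_
      (by fun_prop)
    exact RE.or (RE.ne (by fun_prop) (by fun_prop)) (RE.mem_list (by fun_prop) (by fun_prop))
  · exact RE.le (by fun_prop) (by fun_prop)
  · exact RE.ne (by fun_prop) (by fun_prop)
  · exact RE.eq (by fun_prop) (by fun_prop)
  · refine RE.all_lt (p := fun (x : ((List (ℕ × ℕ) × List (ℕ × ℕ)) × List ℕ) × Wt) (i : ℕ) =>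
      (run (Fq x.1.1.1) x.2.2.2.2.1 (x.2.2.1 + i)).1 +
        (zm x.2.2.2.1 (run (Fq x.1.1.1) x.1.1.2 (x.2.1 + i))).2 =
      (run (Fq x.1.1.1) x.2.2.2.2.1 (x.2.2.1 + i)).2 +
        (zm x.2.2.2.1 (run (Fq x.1.1.1) x.1.1.2 (x.2.1 + i))).1) ?_ (by fun_prop)
    exact RE.eq (by fun_prop) (by fun_prop)
  · exact (cp_prime (by fun_prop)).to_re
  · exact RE.le (by fun_prop) (by fun_prop)
  · exact RE.le (by fun_prop) (by fun_prop)
  · exact RE.le (by fun_prop) (by fun_prop)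
  · exact RE.ne (by fun_prop) (by fun_prop)
  · refine RE.all_lt (p := fun (x : ((List (ℕ × ℕ) × List (ℕ × ℕ)) × List ℕ) × Wt) (j : ℕ) =>
      ((run (Fq x.1.1.1) (uv x.1.1.1.length j) x.2.2.2.2.2.2.1).1 +
        (zm x.2.2.2.2.2.2.2.2 (run (Fq x.1.1.1) (uv x.1.1.1.length j) 0)).2) %
          x.2.2.2.2.2.1 ^ x.2.2.2.2.2.2.2.1 =
      ((run (Fq x.1.1.1) (uv x.1.1.1.length j) x.2.2.2.2.2.2.1).2 +
        (zm x.2.2.2.2.2.2.2.2 (run (Fq x.1.1.1) (uv x.1.1.1.length j) 0)).1) %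
          x.2.2.2.2.2.1 ^ x.2.2.2.2.2.2.2.1) ?_ (by fun_prop)
    exact RE.eq (by fun_prop) (by fun_prop)
  · exact RE.eq (by fun_prop) (by fun_prop)
  · refine RE.all_lt (p := fun (x : ((List (ℕ × ℕ) × List (ℕ × ℕ)) × List ℕ) × Wt) (n : ℕ) =>
      n = 0 ∨ (run (Fq x.1.1.1) x.2.2.2.2.1 n).1 % x.2.2.2.2.2.1 ≠
        (run (Fq x.1.1.1) x.2.2.2.2.1 n).2 % x.2.2.2.2.2.1) ?_ (by fun_prop)
    exact RE.or (RE.eq (by fun_prop) (by fun_prop)) (RE.ne (by fun_prop) (by fun_prop))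
  · exact RE.ne (by fun_prop) (by fun_prop)

theorem iv_eq_zero (x : ℕ × ℕ) : iv x = 0 ↔ x.1 = x.2 := by
  unfold iv
  omega

theorem sound (h : S_SOUND) {p : List (ℕ × ℕ) × List (ℕ × ℕ)} {u : ℕ → ℤ} (hu : IsLRS p u)
    {L : List ℕ} {N k : ℕ} {s : ℕ × ℕ} {a' : List (ℕ × ℕ)} {q b v : ℕ} {lam : ℕ × ℕ}
    (hQ : Q p L N k s a' q b v lam) (n : ℕ) : u n = 0 ↔ n ∈ L := by
  obtain ⟨⟨hL, hN⟩, ⟨hk, hs, ha', hrel⟩, ⟨hq, hq3, hb, hv, hlam⟩, hper, h0, hcls, htop⟩ := hQ
  have hrun := isLRS_run' hu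
  have hlen := hu.1
  have hd : 1 ≤ p.1.length := getLast_iff' p.1 hu.2.1
  obtain ⟨d, hdd⟩ : ∃ d, d = p.1.length := ⟨_, rfl⟩
  rw [← hdd] at ha' hrel hper hd
  have r3 : ∀ e : List (ℕ × ℕ), e.length = d → ∀ n, iv (run (Fq p.1) e n) =
      seq (fun i : Fin d => iv (p.1.getD (d - 1 - i) (0, 0)))
        (fun i : Fin d => iv (e.getD i (0, 0))) n := fun e he n =>
    run_seq hd hdd.symm he _ (fun _ => rfl) _ (fun _ => rfl) n
  have r2 : ∀ n, u n = seq (fun i : Fin d => iv (p.1.getD (d - 1 - i) (0, 0)))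
        (fun i : Fin d => iv (p.2.getD i (0, 0))) n := fun n => by
    rw [← hrun n]
    exact r3 p.2 (by omega) n
  have r1 := r3 a' ha'
  generalize hc' : (fun i : Fin d => iv (p.1.getD (d - 1 - i) (0, 0))) = c' at r1 r2 r3
  generalize hA : (fun i : Fin d => iv (p.2.getD i (0, 0))) = A at r2
  generalize hA' : (fun i : Fin d => iv (a'.getD i (0, 0))) = A' at r1
  have unit_eq : ∀ j < d, ∀ n, iv (run (Fq p.1) (uv d j) n) =
      seq c' (fun i : Fin d => if (i : ℕ) = j then 1 else 0) n := by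
    intro j hj n
    rw [r3 (uv d j) (uv_length d j) n]
    congr 1
    funext i
    exact uv_getD i.2
  have cert : Cert c' A' q b v (iv lam) := by
    refine ⟨hq, hq3, hb, hv, (mod_ne_iff lam q).1 hlam, ?_, ?_, ?_, ?_⟩
    · intro e
      have h1 : ∀ j : Fin d, (q : ℤ) ^ v ∣ seq c' (fun i : Fin d => if (i : ℕ) = j then 1 else 0) b
          - iv lam * seq c' (fun i : Fin d => if (i : ℕ) = j then 1 else 0) 0 := by
        intro j
        have h2 := (modeq_iff _ _ _).1 (hper j j.2)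
        rw [iv_zm, unit_eq j j.2, unit_eq j j.2] at h2
        exact_mod_cast h2
      rw [seq_units c' e b, seq_units c' e 0, Finset.mul_sum, ← Finset.sum_sub_distrib]
      refine Finset.dvd_sum fun j _ => ?_
      have e1 : e j * seq c' (fun i : Fin d => if (i : ℕ) = j then 1 else 0) b -
          iv lam * (e j * seq c' (fun i : Fin d => if (i : ℕ) = j then 1 else 0) 0) =
          e j * (seq c' (fun i : Fin d => if (i : ℕ) = j then 1 else 0) b
          - iv lam * seq c' (fun i : Fin d => if (i : ℕ) = j then 1 else 0) 0) := by ring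
      rw [e1]
      exact Dvd.dvd.mul_left (h1 j) _
    · rw [← r1 0]
      exact (iv_eq_zero _).2 h0
    · intro m hm0 hmb
      rw [← r1 m]
      rcases hcls m hmb with h1 | h1
      · omega
      · exact (mod_ne_iff _ _).1 h1
    · rw [← r1 b]
      have := (mod_ne_iff _ _).1 htop
      exact_mod_cast this
  have key := h d c' A' q b v (iv lam) hd cert
  have shift : ∀ i, seq c' A' (k + i) = iv s * seq c' A (N + i) := by
    intro i
    have e1 := eq_seq c' (fun i : Fin d => seq c' A' (k + i)) (fun i => seq c' A' (k + i))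
      (fun n => by
        have := seq_sol c' A' (k + n)
        simp only [add_assoc] at this ⊢
        exact this) (fun _ => rfl) i
    have e2 := eq_seq c' (fun i : Fin d => seq c' A' (k + i)) (fun i => iv s * seq c' A (N + i))
      (fun n => by
        have := seq_sol c' A (N + n)
        simp only [add_assoc] at this ⊢
        rw [this, Finset.mul_sum]
        refine Finset.sum_congr rfl fun i _ => ?_
        ring) (fun i => by
          have h1 := (eqv_iff _ _).1 (hrel i i.2)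
          rw [iv_zm, r1, hrun, r2] at h1
          exact h1.symm) i
    exact e1.trans e2.symm
  constructor
  · intro hn
    by_cases hnN : n < N
    · rcases hN n hnN with h1 | h1
      · exact absurd ((iv_eq_zero _).1 ((hrun n).trans hn)) h1
      · exact h1
    · exfalso
      have h1 := shift (n - N)
      rw [show N + (n - N) = n by omega, ← r2 n, hn, mul_zero] at h1
      exact key _ (by omega) h1
  · intro hn
    rw [← hrun n]
    exact (iv_eq_zero _).2 (hL n hn)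

open Classical in
theorem complete {d : ℕ} (hd : 1 ≤ d) (c a : Fin d → ℤ)
    {N k : ℕ} {s : ℤ} {a' : Fin d → ℤ} {q b v : ℕ} {lam : ℤ} (hk : 1 ≤ k) (hs : s ≠ 0)
    (hrel : ∀ i : Fin d, seq (fun i => c (Fin.rev i)) a' (k + i) =
        s * seq (fun i => c (Fin.rev i)) a (N + i))
    (hcert : Cert (fun i => c (Fin.rev i)) a' q b v lam) :
    ∃ L, Q (code c, code a) L N k (zc s) (code a') q b v (zc lam) := by
  have hl1 : (code c).length = d := by simp [code]
  have hl2 : (code a).length = d := by simp [code]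
  have hl3 : (code a').length = d := by simp [code]
  have hcode : ∀ (x : Fin d → ℤ) (i : Fin d), x i = iv ((code x).getD i (0, 0)) := by
    intro x i
    rw [code_getD x i i.2]
    unfold iv
    exact (code_val _).symm
  have hcrev : ∀ i : Fin d, c (Fin.rev i) = iv ((code c).getD (d - 1 - i) (0, 0)) := by
    intro i
    have h1 := hcode c (Fin.rev i)
    rw [h1]
    congr 2
    rw [Fin.val_rev]
    omega
  have r3 : ∀ e : List (ℕ × ℕ), e.length = d → ∀ e' : Fin d → ℤ,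
      (∀ i : Fin d, e' i = iv (e.getD i (0, 0))) → ∀ n, iv (run (Fq (code c)) e n) =
      seq (fun i => c (Fin.rev i)) e' n := fun e he e' he' n =>
    run_seq hd hl1 he _ hcrev _ he' n
  have ra := r3 (code a) hl2 a (hcode a)
  have ra' := r3 (code a') hl3 a' (hcode a')
  have ru : ∀ j < d, ∀ n, iv (run (Fq (code c)) (uv d j) n) =
      seq (fun i => c (Fin.rev i)) (fun i : Fin d => if (i : ℕ) = j then 1 else 0) n :=
    fun j _ n => r3 (uv d j) (uv_length d j) _ (fun i => (uv_getD i.2).symm) n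
  refine ⟨(List.range N).filter (fun n => seq (fun i => c (Fin.rev i)) a n = 0), ?_⟩
  unfold Q
  simp only [hl1]
  refine ⟨⟨?_, ?_⟩, ⟨hk, ?_, hl3, ?_⟩, ⟨hcert.pr, hcert.odd, hcert.b1, hcert.v1, ?_⟩, ?_, ?_, ?_, ?_⟩
  · intro n hn
    rw [List.mem_filter] at hn
    have h1 : seq (fun i => c (Fin.rev i)) a n = 0 := by simpa using hn.2
    rw [← ra n] at h1
    exact (iv_eq_zero _).1 h1
  · intro n hn
    by_cases h1 : seq (fun i => c (Fin.rev i)) a n = 0
    · right
      rw [List.mem_filter]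
      exact ⟨List.mem_range.2 hn, by simpa using h1⟩
    · left
      intro h2
      apply h1
      rw [← ra n]
      exact (iv_eq_zero _).2 h2
  · intro h1
    apply hs
    have h2 := (iv_eq_zero (zc s)).2 h1
    rwa [iv_zc] at h2
  · intro i hi
    rw [eqv_iff, iv_zm, iv_zc, ra', ra]
    exact hrel ⟨i, hi⟩
  · rw [mod_ne_iff, iv_zc]
    exact hcert.unit
  · intro j hj
    rw [modeq_iff, iv_zm, iv_zc, ru j hj, ru j hj]
    push_cast
    exact hcert.per _
  · rw [← iv_eq_zero, ra']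
    exact hcert.zero
  · intro n hn
    by_cases h1 : n = 0
    · exact Or.inl h1
    · right
      rw [mod_ne_iff, ra']
      exact hcert.cls n (by omega) hn
  · rw [mod_ne_iff, ra']
    push_cast
    exact hcert.top

/-- ALG: the errorless algorithm -/
theorem alg (h : S_SOUND) : S_ALG := by
  obtain ⟨A, hA, hdom, hs⟩ := RE.uniformize
    (r := fun (p : List (ℕ × ℕ) × List (ℕ × ℕ)) (L : List ℕ) => ∃ w : Wt,
    Q p L w.1 w.2.1 w.2.2.1 w.2.2.2.1 w.2.2.2.2.1 w.2.2.2.2.2.1 w.2.2.2.2.2.2.1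
      w.2.2.2.2.2.2.2) (RE.ex (p :=
    fun (x : (List (ℕ × ℕ) × List (ℕ × ℕ)) × List ℕ) (w : Wt) =>
    Q x.1 x.2 w.1 w.2.1 w.2.2.1 w.2.2.2.1 w.2.2.2.2.1 w.2.2.2.2.2.1 w.2.2.2.2.2.2.1
      w.2.2.2.2.2.2.2) re_Q)
  refine ⟨A, hA, ?_, ?_⟩
  · intro p u hu L hL n
    obtain ⟨w, hw⟩ := hs p L hL
    exact sound h hu hw n
  · rintro d hd c a hc ⟨N, k, s, a', q, b, v, lam, hk, hs0, hrel, hcert⟩
    obtain ⟨L, hL⟩ := complete hd c a hk hs0 hrel hcert
    exact (hdom _).2 ⟨L, (N, k, zc s, code a', q, b, v, zc lam), hL⟩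

end Pool.Agent.W685.SK
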